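import Pool.Agent.helper17.NU.P2
import Pool.Agent.helper41.NU.P3

set_option autoImplicit false
set_option linter.all false

/-! Module P4: the logarithmic Sobolev inequality on an invariant finite dimensional
space, static variational proof. -/

open MeasureTheory Filter Topology Set
open scoped ContDiff

noncomputable section

namespace Pool.Agent.helper31.NU

section P4

variable {M : Type*} [TopologicalSpace M] [CompactSpace M] [Nonempty M] [MeasurableSpace M]
  [BorelSpace M] {σ : Measure M} [IsProbabilityMeasure σ] [σ.IsOpenPosMeasure]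
  {S : Set (M → ℝ)} {L : (M → ℝ) → M → ℝ} {Γ : (M → ℝ) → (M → ℝ) → M → ℝ} {n : ℝ}

omit [Nonempty M] [σ.IsOpenPosMeasure] in
private lemma p4_cont_int {d : ℕ} {f : (Fin d → ℝ) → M → ℝ}
    (hf : Continuous (Function.uncurry f)) : Continuous (fun a => ∫ x, f a x ∂σ) := by
  have := continuous_parametric_integral_of_continuous (μ := σ) hf (isCompact_univ (X := M))
  simpa using this

omit [Nonempty M] in
private lemma p4_pos {f : M → ℝ} (hf : Continuous f) (h0 : ∀ x, 0 ≤ f x) {x : M}
    (hx : f x ≠ 0) : 0 < ∫ x, f x ∂σ :=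
  hf.integral_pos_of_hasCompactSupport_nonneg_nonzero (HasCompactSupport.of_compactSpace f)
    (fun x => h0 x) hx

/-- coercivity of the `L¹` norm on a finite dimensional space of continuous functions -/
private lemma p4_coer {d : ℕ} (b : Fin d → M → ℝ) (hb : ∀ i, Continuous (b i))
    (hli : LinearIndependent ℝ b) :
    ∃ δ : ℝ, 0 < δ ∧ ∀ a : Fin d → ℝ, δ * ‖a‖ ≤ ∫ x, |∑ i, a i * b i x| ∂σ := by
  have hc : Continuous (Function.uncurry fun (a : Fin d → ℝ) (x : M) => |∑ i, a i * b i x|) := by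
    have hbi := hb
    apply Continuous.abs
    apply continuous_finset_sum
    intro i _
    exact ((continuous_apply i).comp continuous_fst).mul ((hb i).comp continuous_snd)
  have hN : Continuous (fun a : Fin d → ℝ => ∫ x, |∑ i, a i * b i x| ∂σ) := p4_cont_int hc
  by_cases hs : (Metric.sphere (0 : Fin d → ℝ) 1).Nonempty
  · obtain ⟨a0, ha0, hmin⟩ := (isCompact_sphere (0 : Fin d → ℝ) 1).exists_isMinOn hs hN.continuousOn
    have ha0n : ‖a0‖ = 1 := by simpa using ha0
    have hne : a0 ≠ 0 := by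
      intro h; rw [h] at ha0n; simp at ha0n
    have hx : ∃ x, (∑ i, a0 i * b i x) ≠ 0 := by
      by_contra hcon
      push Not at hcon
      apply hne
      have : ∑ i, a0 i • b i = 0 := by
        ext x
        simp only [Finset.sum_apply, Pi.smul_apply, smul_eq_mul, Pi.zero_apply]
        exact hcon x
      funext i
      exact Fintype.linearIndependent_iff.mp hli a0 this i
    obtain ⟨x, hx⟩ := hx
    have hpos : 0 < ∫ x, |∑ i, a0 i * b i x| ∂σ := by
      have hcc : Continuous fun x => |∑ i, a0 i * b i x| := by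
        apply Continuous.abs
        apply continuous_finset_sum
        intro i _
        exact continuous_const.mul (hb i)
      exact p4_pos hcc (fun x => abs_nonneg _) (x := x) (by simpa using hx)
    refine ⟨_, hpos, fun a => ?_⟩
    by_cases ha : a = 0
    · subst ha
      simp
    · have hna : 0 < ‖a‖ := norm_pos_iff.mpr ha
      have hmem : (‖a‖⁻¹ • a) ∈ Metric.sphere (0 : Fin d → ℝ) 1 := by
        simp [norm_smul, hna.ne']
      have h1 := hmin hmem
      simp only [mem_setOf_eq] at h1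
      have h2 : ∫ x, |∑ i, (‖a‖⁻¹ • a) i * b i x| ∂σ = ‖a‖⁻¹ * ∫ x, |∑ i, a i * b i x| ∂σ := by
        rw [← integral_const_mul]
        congr 1
        funext x
        rw [← abs_of_pos (inv_pos.mpr hna), ← abs_mul, Finset.mul_sum, abs_of_pos (inv_pos.mpr hna)]
        congr 1
        apply Finset.sum_congr rfl
        intro i _
        simp only [Pi.smul_apply, smul_eq_mul]
        ring
      rw [h2] at h1
      rw [inv_mul_eq_div, le_div_iff₀ hna] at h1
      exact h1
  · refine ⟨1, one_pos, fun a => ?_⟩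
    have ha : a = 0 := by
      by_contra ha
      have hna : 0 < ‖a‖ := norm_pos_iff.mpr ha
      apply hs
      exact ⟨‖a‖⁻¹ • a, by simp [norm_smul, hna.ne']⟩
    subst ha
    simp

omit [CompactSpace M] [Nonempty M] [BorelSpace M] [IsProbabilityMeasure σ]
  [σ.IsOpenPosMeasure] in
private lemma p4_zero_mem (D : Diff σ S L Γ n) : (0 : M → ℝ) ∈ S := D.const 0

private lemma p4_sum_mem (D : Diff σ S L Γ n) {ι : Type*} (t : Finset ι) (a : ι → ℝ)
    (b : ι → M → ℝ) (hb : ∀ i, b i ∈ S) : (∑ i ∈ t, a i • b i) ∈ S := by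
  classical
  induction t using Finset.induction_on with
  | empty => exact D.const 0
  | insert i t hi ih =>
    rw [Finset.sum_insert hi]
    exact D.add _ (D.smul (hb i) _) _ ih

private lemma p4_Gsum (D : Diff σ S L Γ n) {ι : Type*} (t : Finset ι) (a : ι → ℝ)
    (b : ι → M → ℝ) (hb : ∀ i, b i ∈ S) {v : M → ℝ} (hv : v ∈ S) (x : M) :
    Γ (∑ i ∈ t, a i • b i) v x = ∑ i ∈ t, a i * Γ (b i) v x := by
  classical
  induction t using Finset.induction_on with
  | empty =>
    simp only [Finset.sum_empty]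
    exact D.Gconst 0 v hv x
  | insert i t hi ih =>
    rw [Finset.sum_insert hi, Finset.sum_insert hi,
      D.Gadd _ (D.smul (hb i) _) _ (p4_sum_mem D t a b hb) _ hv, ih, D.Gsmul (hb i) hv]

/-- existence of a minimiser -/
private lemma p4_min (D : Diff σ S L Γ n) (hn : 0 < n) {F : Submodule ℝ (M → ℝ)}
    [FiniteDimensional ℝ F] (hF : ∀ u ∈ F, u ∈ S)
    (h1 : (fun _ => (1 : ℝ)) ∈ F) {c ε : ℝ} (hc : 1 < c) (hε : 0 < ε) (hε1 : ε < 1) :
    ∃ f ∈ F, (∀ x, ε ≤ f x) ∧ ∫ x, f x ∂σ = 1 ∧ ∀ h ∈ F, (∀ x, ε ≤ h x) → ∫ x, h x ∂σ = 1 →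
      n * Real.log (1 + c * (∫ x, Γ f f x / f x ∂σ) / n) - ∫ x, f x * Real.log (f x) ∂σ ≤
      n * Real.log (1 + c * (∫ x, Γ h h x / h x ∂σ) / n) - ∫ x, h x * Real.log (h x) ∂σ := by
  set d := Module.finrank ℝ F with hd
  let B := Module.finBasis ℝ F
  let b : Fin d → M → ℝ := fun i => (B i : M → ℝ)
  have hbF : ∀ i, b i ∈ F := fun i => (B i).2
  have hbS : ∀ i, b i ∈ S := fun i => hF _ (hbF i)
  have hbc : ∀ i, Continuous (b i) := fun i => D.cont _ (hbS i)
  have hli : LinearIndependent ℝ b := by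
    have := B.linearIndependent.map' F.subtype (Submodule.ker_subtype F)
    exact this
  have hrep : ∀ h ∈ F, ∃ a : Fin d → ℝ, (∑ i, a i • b i) = h := by
    intro h hh
    refine ⟨fun i => B.repr ⟨h, hh⟩ i, ?_⟩
    have := B.sum_repr ⟨h, hh⟩
    have h2 := congrArg (fun u : F => (u : M → ℝ)) this
    simp only [Submodule.coe_sum, Submodule.coe_smul] at h2
    exact h2
  have hval : ∀ (a : Fin d → ℝ) (x : M), (∑ i, a i • b i) x = ∑ i, a i * b i x := by
    intro a x
    simp
  have hmemF : ∀ a : Fin d → ℝ, (∑ i, a i • b i) ∈ F := by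
    intro a
    exact Submodule.sum_mem _ (fun i _ => F.smul_mem _ (hbF i))
  have hmemS : ∀ a : Fin d → ℝ, (∑ i, a i • b i) ∈ S := fun a => hF _ (hmemF a)
  have hGam : ∀ (a : Fin d → ℝ) (x : M), Γ (∑ i, a i • b i) (∑ i, a i • b i) x =
      ∑ i, ∑ j, a i * a j * Γ (b i) (b j) x := by
    intro a x
    rw [p4_Gsum D _ a b hbS (hmemS a)]
    apply Finset.sum_congr rfl
    intro i _
    rw [D.Gsymm _ (hbS i) _ (hmemS a), p4_Gsum D _ a b hbS (hbS i), Finset.mul_sum]
    apply Finset.sum_congr rfl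
    intro j _
    rw [D.Gsymm _ (hbS j) _ (hbS i)]
    ring
  -- the two continuous functions
  have hcΦ : Continuous (Function.uncurry fun (a : Fin d → ℝ) (x : M) => ∑ i, a i * b i x) := by
    apply continuous_finset_sum
    intro i _
    exact ((continuous_apply i).comp continuous_fst).mul ((hbc i).comp continuous_snd)
  have hcΓ : Continuous (Function.uncurry fun (a : Fin d → ℝ) (x : M) =>
      ∑ i, ∑ j, a i * a j * Γ (b i) (b j) x) := by
    apply continuous_finset_sum
    intro i _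
    apply continuous_finset_sum
    intro j _
    exact (((continuous_apply i).comp continuous_fst).mul
      ((continuous_apply j).comp continuous_fst)).mul
      ((D.cont _ (D.memG _ (hbS i) _ (hbS j))).comp continuous_snd)
  let I : (Fin d → ℝ) → ℝ := fun a =>
    ∫ x, (∑ i, ∑ j, a i * a j * Γ (b i) (b j) x) / max (∑ i, a i * b i x) ε ∂σ
  have hIc : Continuous I := by
    apply p4_cont_int
    apply Continuous.div hcΓ (hcΦ.max continuous_const)
    rintro ⟨a, x⟩
    exact (lt_of_lt_of_le hε (le_max_right _ _)).ne'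
  let J : (Fin d → ℝ) → ℝ := fun a =>
    ∫ x, (∑ i, a i * b i x) * Real.log (∑ i, a i * b i x) ∂σ
  have hJc : Continuous J := by
    apply p4_cont_int
    exact Real.continuous_mul_log.comp hcΦ
  have hI0 : ∀ a, 0 ≤ I a := by
    intro a
    apply integral_nonneg
    intro x
    apply div_nonneg
    · rw [← hGam]
      exact D.Gnonneg _ (hmemS a) x
    · exact (lt_of_lt_of_le hε (le_max_right _ _)).le
  let G : (Fin d → ℝ) → ℝ := fun a => n * Real.log (1 + c * I a / n) - J a
  have hGc : Continuous G := by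
    refine Continuous.sub (continuous_const.mul (Continuous.log ?_ ?_)) hJc
    · exact continuous_const.add ((continuous_const.mul hIc).div_const _)
    · intro a
      have : 0 ≤ c * I a / n := by
        have := hI0 a
        positivity
      positivity
  let K : Set (Fin d → ℝ) := {a | (∀ x, ε ≤ ∑ i, a i * b i x) ∧ ∫ x, ∑ i, a i * b i x ∂σ = 1}
  have hKeq : K = (⋂ x, {a : Fin d → ℝ | ε ≤ ∑ i, a i * b i x}) ∩
      {a | ∫ x, ∑ i, a i * b i x ∂σ = 1} := by
    ext a
    simp only [mem_inter_iff, mem_iInter, mem_setOf_eq, K]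
  have hKclosed : IsClosed K := by
    rw [hKeq]
    apply IsClosed.inter
    · apply isClosed_iInter
      intro x
      apply isClosed_le continuous_const
      exact hcΦ.comp (continuous_id.prodMk continuous_const)
    · exact isClosed_eq (p4_cont_int hcΦ) continuous_const
  obtain ⟨δ, hδ, hcoer⟩ := p4_coer (σ := σ) b hbc hli
  have hKb : K ⊆ Metric.closedBall 0 (1 / δ) := by
    rintro a ⟨ha1, ha2⟩
    have h2 := hcoer a
    have h3 : ∫ x, |∑ i, a i * b i x| ∂σ = 1 := by
      rw [← ha2]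
      congr 1
      funext x
      exact abs_of_pos (lt_of_lt_of_le hε (ha1 x))
    rw [h3] at h2
    rw [mem_closedBall_zero_iff, le_div_iff₀ hδ]
    linarith
  have hKcomp : IsCompact K := (isCompact_closedBall (0 : Fin d → ℝ) (1 / δ)).of_isClosed_subset
    hKclosed hKb
  have hKne : K.Nonempty := by
    obtain ⟨a, ha⟩ := hrep _ h1
    have hax : ∀ x, ∑ i, a i * b i x = 1 := by
      intro x
      rw [← hval, ha]
    refine ⟨a, fun x => by rw [hax]; exact hε1.le, ?_⟩
    simp [hax]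
  obtain ⟨a, haK, hmin⟩ := hKcomp.exists_isMinOn hKne hGc.continuousOn
  have hGeq : ∀ a ∈ K, G a = n * Real.log (1 + c * (∫ x, Γ (∑ i, a i • b i) (∑ i, a i • b i) x /
      (∑ i, a i • b i) x ∂σ) / n) - ∫ x, (∑ i, a i • b i) x * Real.log ((∑ i, a i • b i) x) ∂σ := by
    intro a ha
    have h3 : I a = ∫ x, Γ (∑ i, a i • b i) (∑ i, a i • b i) x / (∑ i, a i • b i) x ∂σ := by
      show ∫ x, (∑ i, ∑ j, a i * a j * Γ (b i) (b j) x) / max (∑ i, a i * b i x) ε ∂σ = _
      congr 1
      funext x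
      rw [hGam, hval, max_eq_left (ha.1 x)]
    have h4 : J a = ∫ x, (∑ i, a i • b i) x * Real.log ((∑ i, a i • b i) x) ∂σ := by
      show ∫ x, (∑ i, a i * b i x) * Real.log (∑ i, a i * b i x) ∂σ = _
      congr 1
      funext x
      rw [hval]
    show n * Real.log (1 + c * I a / n) - J a = _
    rw [h3, h4]
  refine ⟨∑ i, a i • b i, hmemF a, fun x => ?_, ?_, fun h hh hhε hh1 => ?_⟩
  · rw [hval]; exact haK.1 x
  · rw [← haK.2]
    congr 1
    funext x
    rw [hval]
  · obtain ⟨a', ha'⟩ := hrep h hh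
    have hval' : ∀ x, ∑ i, a' i * b i x = h x := by
      intro x
      rw [← hval, ha']
    have ha'K : a' ∈ K := by
      refine ⟨fun x => by rw [hval']; exact hhε x, ?_⟩
      rw [← hh1]
      congr 1
      funext x
      rw [hval']
    have h5 := hmin ha'K
    simp only [mem_setOf_eq] at h5
    rw [hGeq a haK, hGeq a' ha'K, ha'] at h5
    exact h5

/-- the variational step: `G ≥ 0` on `K_ε` -/
private lemma p4_step (D : Diff σ S L Γ n) (hn : 0 < n) {F : Submodule ℝ (M → ℝ)}
    [FiniteDimensional ℝ F] (hF : ∀ u ∈ F, u ∈ S) (hL : ∀ u ∈ F, L u ∈ F)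
    (h1 : (fun _ => (1 : ℝ)) ∈ F) {c ε : ℝ} (hc : 1 < c) (hε : 0 < ε) (hε1 : ε < 1)
    {h : M → ℝ} (hh : h ∈ F) (hhε : ∀ x, ε ≤ h x) (hh1 : ∫ x, h x ∂σ = 1) :
    0 ≤ n * Real.log (1 + c * (∫ x, Γ h h x / h x ∂σ) / n) - ∫ x, h x * Real.log (h x) ∂σ := by
  obtain ⟨f, hfF, hfε, hf1, hmin⟩ := p4_min D hn hF h1 hc hε hε1
  refine le_trans ?_ (hmin h hh hhε hh1)
  have hfS := hF f hfF
  have hf0 : ∀ x, 0 < f x := fun x => lt_of_lt_of_le hε (hfε x)
  have hgF := hL f hfF
  have hgS := hF _ hgF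
  have hwF := hL _ hgF
  have hwS := hF _ hwF
  have hfc := D.cont _ hfS
  have hgc := D.cont _ hgS
  have hwc := D.cont _ hwS
  have hAc := D.cont _ (D.memG _ hfS _ hfS)
  have hBc := D.cont _ (D.memG _ hfS _ hgS)
  have hEc := D.cont _ (D.memG _ hgS _ hgS)
  -- bound on `w`
  obtain ⟨W, hW0, hW⟩ : ∃ W : ℝ, 0 ≤ W ∧ ∀ x, |L (L f) x| ≤ W := by
    obtain ⟨x0, -, hx0⟩ := isCompact_univ.exists_isMaxOn (univ_nonempty (α := M))
      (hwc.abs.continuousOn)
    exact ⟨|L (L f) x0|, abs_nonneg _, fun x => hx0 (mem_univ x)⟩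
  have h1ε : 0 < 1 - ε := by linarith
  set C := W / (1 - ε) with hCdef
  have hC0 : 0 ≤ C := div_nonneg hW0 h1ε.le
  have hCW : C * (1 - ε) = W := by rw [hCdef]; field_simp
  -- lower bound
  have hlow : ∀ s : ℝ, 0 ≤ s → ∀ x, ε - s ^ 2 * W ≤ f x + s * L f x := by
    intro s hs x
    have huF : f + s • L f ∈ F := F.add_mem hfF (F.smul_mem _ hgF)
    have huS := hF _ huF
    obtain ⟨x0, -, hx0⟩ := isCompact_univ.exists_isMinOn (univ_nonempty (α := M))
      ((D.cont _ huS).continuousOn)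
    have hx0' : ∀ y, (f + s • L f) x0 ≤ (f + s • L f) y := fun y => hx0 (mem_univ y)
    have hm := D.min _ huS x0 hx0'
    rw [D.Ladd _ hfS _ (D.smul hgS s), D.Lsmul hgS] at hm
    have h2 := hx0' x
    simp only [Pi.add_apply, Pi.smul_apply, smul_eq_mul] at h2
    have h3 := (abs_le.mp (hW x0)).2
    have h4 := hfε x0
    have h5 : s * (L f x0 + s * L (L f) x0) ≥ 0 := mul_nonneg hs hm
    have h6 : s ^ 2 * L (L f) x0 ≤ s ^ 2 * W := mul_le_mul_of_nonneg_left h3 (sq_nonneg s)
    nlinarith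
  -- the curve
  let H : ℝ → M → ℝ := fun s => (1 / (1 + C * s ^ 2)) • (f + s • L f + fun _ => C * s ^ 2)
  have hden : ∀ s : ℝ, 0 < 1 + C * s ^ 2 := fun s => by positivity
  have hconstF : ∀ r : ℝ, (fun _ => r : M → ℝ) ∈ F := by
    intro r
    have := F.smul_mem r h1
    convert this using 1
    funext x
    simp
  have hHF : ∀ s, H s ∈ F := fun s =>
    F.smul_mem _ (F.add_mem (F.add_mem hfF (F.smul_mem _ hgF)) (hconstF _))
  have hHval : ∀ s x, H s x = (f x + s * L f x + C * s ^ 2) / (1 + C * s ^ 2) := by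
    intro s x
    simp only [H, Pi.smul_apply, Pi.add_apply, smul_eq_mul]
    ring
  have hHε : ∀ s, 0 ≤ s → ∀ x, ε ≤ H s x := by
    intro s hs x
    rw [hHval, le_div_iff₀ (hden s)]
    have := hlow s hs x
    nlinarith
  have hH1 : ∀ s, ∫ x, H s x ∂σ = 1 := by
    intro s
    simp only [hHval]
    rw [integral_div, integral_add, integral_add, integral_const_mul, D.int _ hfS, hf1]
    · simp
      exact (hden s).ne'
    · exact D.integrable hfS
    · exact (D.integrable hgS).const_mul s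
    · exact (D.integrable hfS).add ((D.integrable hgS).const_mul s)
    · exact integrable_const _
  have hHG : ∀ s x, Γ (H s) (H s) x =
      (Γ f f x + 2 * s * Γ f (L f) x + s ^ 2 * Γ (L f) (L f) x) / (1 + C * s ^ 2) ^ 2 := by
    intro s x
    have e1 : f + s • L f ∈ S := D.add _ hfS _ (D.smul hgS s)
    have e2 : (f + s • L f + fun _ => C * s ^ 2) ∈ S := D.add _ e1 _ (D.const _)
    have key : ∀ v ∈ S, Γ (f + s • L f + fun _ => C * s ^ 2) v x = Γ f v x + s * Γ (L f) v x := by
      intro v hv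
      rw [D.Gadd _ e1 _ (D.const _) _ hv, D.Gconst _ _ hv, D.Gadd _ hfS _ (D.smul hgS s) _ hv,
        D.Gsmul hgS hv]
      ring
    show Γ ((1 / (1 + C * s ^ 2)) • (f + s • L f + fun _ => C * s ^ 2))
      ((1 / (1 + C * s ^ 2)) • (f + s • L f + fun _ => C * s ^ 2)) x = _
    rw [D.Gsmul e2 (D.smul e2 _), D.Gsmul_right e2 e2, key _ e2, D.Gsymm _ hfS _ e2, key _ hfS,
      D.Gsymm _ hgS _ e2, key _ hgS, D.Gsymm _ hgS _ hfS]
    field_simp
    ring
  -- derivative
  have hdE := hasDerivAt_ent (σ := σ) hfc hgc hf0 C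
  have hdI := hasDerivAt_fisher (σ := σ) hfc hgc hAc hBc hEc hf0 C
  set I := ∫ x, Γ f f x / f x ∂σ with hIdef
  set DD := ∫ x, (2 * Γ f (L f) x / f x - Γ f f x * L f x / f x ^ 2) ∂σ with hDD
  have hI0 : 0 ≤ I := integral_nonneg fun x => div_nonneg (D.Gnonneg _ hfS x) (hf0 x).le
  let φ : ℝ → ℝ := fun s => n * Real.log (1 + c * (∫ x, Γ (H s) (H s) x / H s x ∂σ) / n) -
    ∫ x, H s x * Real.log (H s x) ∂σ
  have hφI : ∀ s, ∫ x, Γ (H s) (H s) x / H s x ∂σ = ∫ x, ((Γ f f x + 2 * s * Γ f (L f) x +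
      s ^ 2 * Γ (L f) (L f) x) / (1 + C * s ^ 2) ^ 2) /
      ((f x + s * L f x + C * s ^ 2) / (1 + C * s ^ 2)) ∂σ := by
    intro s
    congr 1
    funext x
    rw [hHG, hHval]
  have hφE : ∀ s, ∫ x, H s x * Real.log (H s x) ∂σ =
      ∫ x, ((f x + s * L f x + C * s ^ 2) / (1 + C * s ^ 2)) *
      Real.log ((f x + s * L f x + C * s ^ 2) / (1 + C * s ^ 2)) ∂σ := by
    intro s
    congr 1
    funext x
    rw [hHval]
  have hH0 : H 0 = f := by
    funext x
    rw [hHval]
    simp
  have hφd : HasDerivAt φ (n * ((c * DD / n) / (1 + c * I / n)) -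
      ∫ x, L f x * (Real.log (f x) + 1) ∂σ) 0 := by
    have hI' : HasDerivAt (fun s => ∫ x, Γ (H s) (H s) x / H s x ∂σ) DD 0 := by
      simp only [hφI]
      exact hdI
    have hE' : HasDerivAt (fun s => ∫ x, H s x * Real.log (H s x) ∂σ)
        (∫ x, L f x * (Real.log (f x) + 1) ∂σ) 0 := by
      simp only [hφE]
      exact hdE
    refine HasDerivAt.sub (HasDerivAt.const_mul n ?_) hE'
    have h3 : HasDerivAt (fun s => 1 + c * (∫ x, Γ (H s) (H s) x / H s x ∂σ) / n)
        (c * DD / n) 0 := ((hI'.const_mul c).div_const n).const_add 1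
    have h4 := h3.log (by
      rw [hH0]
      have : 0 ≤ c * I / n := by positivity
      positivity)
    rw [hH0] at h4
    exact h4
  have hφmin : ∀ s, 0 ≤ s → φ 0 ≤ φ s := by
    intro s hs
    have := hmin (H s) (hHF s) (hHε s hs) (hH1 s)
    show n * Real.log (1 + c * (∫ x, Γ (H 0) (H 0) x / H 0 x ∂σ) / n) -
      ∫ x, H 0 x * Real.log (H 0 x) ∂σ ≤ _
    rw [hH0]
    exact this
  have hder : 0 ≤ n * ((c * DD / n) / (1 + c * I / n)) -
      ∫ x, L f x * (Real.log (f x) + 1) ∂σ := by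
    have h5 := hφd.hasDerivWithinAt (s := Ioi 0)
    rw [hasDerivWithinAt_iff_tendsto_slope' (by simp)] at h5
    refine ge_of_tendsto h5 ?_
    filter_upwards [self_mem_nhdsWithin] with s hs
    rw [slope_def_field]
    have hs' : 0 < s := hs
    exact div_nonneg (by linarith [hφmin s hs'.le]) (by linarith)
  have hent : ∫ x, L f x * (Real.log (f x) + 1) ∂σ = -I := by
    have h6 : ∀ x, L f x * (Real.log (f x) + 1) = L f x * Real.log (f x) + L f x := fun x => by ring
    simp only [h6]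
    rw [integral_add, D.ent_L hfS hf0, D.int _ hfS]
    · ring
    · exact D.integrable (D.mul _ hgS _ (D.log_mem hfS hf0))
    · exact D.integrable hgS
  have hfis := D.fisher_le hn hfS hf0 hf1
  rw [hent] at hder
  have hIz : I = 0 := by
    have hpos : 0 < 1 + c * I / n := by
      have : 0 ≤ c * I / n := by positivity
      positivity
    have h7 : n * ((c * DD / n) / (1 + c * I / n)) = c * DD / (1 + c * I / n) := by
      field_simp
    rw [h7] at hder
    have h8 : -I * (1 + c * I / n) ≤ c * DD := by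
      have h9 : -I ≤ c * DD / (1 + c * I / n) := by linarith
      rwa [le_div_iff₀ hpos] at h9
    have h10 : c * DD ≤ c * (-I - I ^ 2 / n) := mul_le_mul_of_nonneg_left hfis (by linarith)
    have h11 : (c - 1) * I ≤ 0 := by
      have h12 : -I * (1 + c * I / n) ≤ c * (-I - I ^ 2 / n) := h8.trans h10
      have h13 : -I * (1 + c * I / n) = -I - c * (I ^ 2 / n) := by ring
      rw [h13] at h12
      nlinarith
    nlinarith
  -- `f = 1`
  have hG0 : ∀ x, Γ f f x = 0 := by
    intro x
    by_contra hx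
    have hc2 : Continuous fun x => Γ f f x / f x := hAc.div hfc fun x => (hf0 x).ne'
    have := p4_pos (σ := σ) hc2 (fun x => div_nonneg (D.Gnonneg _ hfS x) (hf0 x).le) (x := x)
      (div_ne_zero hx (hf0 x).ne')
    rw [← hIdef, hIz] at this
    exact lt_irrefl _ this
  have hfconst := D.conn f hfS hG0
  obtain ⟨x0⟩ := ‹Nonempty M›
  have hf1' : ∀ x, f x = 1 := by
    intro x
    have h14 : ∫ y, f y ∂σ = f x := by
      have : ∀ y, f y = f x := fun y => hfconst y x
      simp [this]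
    rw [← h14, hf1]
  rw [hIz]
  simp [hf1']

/-- For `c > 1` and `0 < ε < 1` put `G(f) = n log (1 + c I(f)/n) - Ent(f)` on the compact set
`K_ε = {f ∈ F, f ≥ ε, ∫ f = 1}`; the minimiser of `G` is `1`; then let `c → 1`. -/
theorem Diff.lsi_fin (D : Diff σ S L Γ n) (hn : 0 < n) {F : Submodule ℝ (M → ℝ)}
    [FiniteDimensional ℝ F] (hF : ∀ u ∈ F, u ∈ S) (hL : ∀ u ∈ F, L u ∈ F)
    (h1 : (fun _ => (1 : ℝ)) ∈ F) {f : M → ℝ} (hf : f ∈ F) (h0 : ∀ x, 0 < f x)
    (hint : ∫ x, f x ∂σ = 1) :
    ∫ x, f x * Real.log (f x) ∂σ ≤ n * Real.log (1 + (∫ x, Γ f f x / f x ∂σ) / n) := by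
  obtain ⟨x0, -, hx0⟩ := isCompact_univ.exists_isMinOn (univ_nonempty (α := M))
    ((D.cont _ (hF _ hf)).continuousOn)
  have hx0' : ∀ x, f x0 ≤ f x := fun x => hx0 (mem_univ x)
  set ε := Min.min (f x0) (1 / 2) with hε
  have hε0 : 0 < ε := lt_min (h0 x0) (by norm_num)
  have hε1 : ε < 1 := lt_of_le_of_lt (min_le_right _ _) (by norm_num)
  have hfε : ∀ x, ε ≤ f x := fun x => (min_le_left _ _).trans (hx0' x)
  set I := ∫ x, Γ f f x / f x ∂σ with hI
  have hI0 : 0 ≤ I := integral_nonneg fun x => div_nonneg (D.Gnonneg _ (hF _ hf) x) (h0 x).le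
  have hc : ∀ c : ℝ, 1 < c → ∫ x, f x * Real.log (f x) ∂σ ≤ n * Real.log (1 + c * I / n) := by
    intro c hc
    have := p4_step D hn hF hL h1 hc hε0 hε1 hf hfε hint
    linarith
  have hcont : ContinuousAt (fun c : ℝ => n * Real.log (1 + c * I / n)) 1 := by
    refine ContinuousAt.mul continuousAt_const (ContinuousAt.log ?_ ?_)
    · fun_prop
    · have : 0 ≤ 1 * I / n := by positivity
      positivity
  have ht : Tendsto (fun c : ℝ => n * Real.log (1 + c * I / n)) (𝓝[>] 1)
      (𝓝 (n * Real.log (1 + 1 * I / n))) := hcont.tendsto.mono_left nhdsWithin_le_nhds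
  have := ge_of_tendsto ht (by
    filter_upwards [self_mem_nhdsWithin] with c hc'
    exact hc c hc')
  simpa using this

end P4

end Pool.Agent.helper31.NU
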